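import Pool.Agent.H69.LQ.Lib
import Pool.Agent.H69.LNN.Targets

/-!
# LNN, row GX: Green's formula for linear functions, expansion of the angular energy
-/

set_option autoImplicit false

open MeasureTheory Metric Set
open scoped ENNReal
open Pool.Agent.H85.LK (E adm lam Ann)
open Pool.Agent.H69.LQ Pool.Agent.H69.LNN

namespace Pool.Agent.H38.LNN

section

variable {N : ℕ}

theorem gx_cont_LL (i j : Fin N) {f : E N → ℝ} (hf : ContDiff ℝ (⊤ : ℕ∞) f) :
    Continuous (LL i j f) := by
  unfold LL
  have h := hf.continuous_fderiv (by simp)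
  fun_prop

theorem gx_fderiv_coord (i : Fin N) (x v : E N) :
    fderiv ℝ (fun x : E N => x i) x v = v i := by
  have h : (fun x : E N => x i) = (EuclideanSpace.proj i : E N →L[ℝ] ℝ) := by
    funext x; simp
  rw [h, ContinuousLinearMap.fderiv]
  simp

theorem gx_LL_coord (i a b : Fin N) (x : E N) :
    LL a b (fun x : E N => x i) x = x a * (if i = b then 1 else 0) - x b * (if i = a then 1 else 0) := by
  unfold LL
  rw [gx_fderiv_coord, gx_fderiv_coord]
  simp [EuclideanSpace.single_apply, Pi.single_apply]

theorem gx_Gs_coord (i : Fin N) (x : E N) :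
    Gs (fun x : E N => x i) x = (∑ a, x a ^ 2) - x i ^ 2 := by
  unfold Gs
  have h : ∀ a b : Fin N, LL a b (fun x : E N => x i) x ^ 2 =
      (if i = b then x a ^ 2 else 0) + (if i = a then x b ^ 2 else 0) -
        2 * (if i = a then (if i = b then x a * x b else 0) else 0) := by
    intro a b
    rw [gx_LL_coord]
    by_cases h1 : i = a <;> by_cases h2 : i = b
    · simp only [h1, h2, if_true]
      subst h1; subst h2; simp; ring
    · simp [h1, h2]
      subst h1
      simp [h2]
    · simp [h1, h2]
      subst h2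
      simp [h1]
    · simp [h1, h2]
  simp only [h, Finset.sum_add_distrib, Finset.sum_sub_distrib, ← Finset.mul_sum]
  simp only [Finset.sum_ite_eq, Finset.mem_univ, if_true]
  have e1 : ∑ a : Fin N, ∑ b : Fin N, (if i = a then x b ^ 2 else 0) = ∑ b : Fin N, x b ^ 2 := by
    rw [Finset.sum_comm]
    simp only [Finset.sum_ite_eq, Finset.mem_univ, if_true]
  have e2 : ∑ a : Fin N, ∑ b : Fin N, (if i = a then (if i = b then x a * x b else 0) else 0) =
      x i ^ 2 := by
    rw [Finset.sum_comm]
    simp only [Finset.sum_ite_eq, Finset.mem_univ, if_true]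
    ring
  rw [e1, e2]
  ring

end

theorem pf_GX (hMO : T_MO) (hKP : T_KP) : T_GX := by
  intro N f g i hN hf hg
  obtain ⟨m0, m1, m2, -, -⟩ := hMO N hN
  have hcf := hf.continuous
  refine ⟨?_, ?_, ?_⟩
  · obtain ⟨Q', hdeg, -, hQ⟩ := hKP N 1 (MvPolynomial.X i) hN (MvPolynomial.totalDegree_X i).le
    have hev : ev (MvPolynomial.X i : MvPolynomial (Fin N) ℝ) = fun x : E N => x i := by
      funext x; simp [ev]
    have hQc : Q' = MvPolynomial.C (MvPolynomial.coeff 0 Q') :=
      MvPolynomial.totalDegree_eq_zero_iff_eq_C.1 (by simpa using hdeg)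
    set c : ℝ := MvPolynomial.coeff 0 Q' with hc
    have hevQ : ∀ x : E N, ev Q' x = c := by
      intro x; rw [hQc]; simp [ev]
    have hi : BM (fun θ : Sp N => (θ : E N) i) := BM_coord i
    have h1 := hQ (fun _ => 1) contDiff_const
    have h1L : av (fun θ : Sp N => Gb (fun _ => (1 : ℝ))
        (ev (MvPolynomial.X i : MvPolynomial (Fin N) ℝ)) (θ : E N)) = 0 := by
      have : (fun θ : Sp N => Gb (fun _ => (1 : ℝ))
        (ev (MvPolynomial.X i : MvPolynomial (Fin N) ℝ)) (θ : E N)) = fun _ => 0 := by
        funext θ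
        unfold Gb LL
        simp
      rw [this, av_zero]
    rw [h1L, hev] at h1
    have h2 : av (fun θ : Sp N => (fun _ : E N => (1 : ℝ)) (θ : E N) *
        ((1 : ℕ) * ((1 : ℕ) + N - 2) * (fun x : E N => x i) (θ : E N) + ev Q' (θ : E N))) = c := by
      have h3 : (fun θ : Sp N => (fun _ : E N => (1 : ℝ)) (θ : E N) *
        (((1 : ℕ) : ℝ) * (((1 : ℕ) : ℝ) + N - 2) * (fun x : E N => x i) (θ : E N) + ev Q' (θ : E N))) =
          fun θ : Sp N => ((N : ℝ) - 1) * (θ : E N) i + c := by
        funext θ
        simp only [hevQ]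
        push_cast; ring
      rw [h3, av_add (hi.const_mul _) (BM_const c), av_const_mul, m1 i, mul_zero, zero_add]
      have : av (fun _ : Sp N => c) = c * av (fun _ : Sp N => (1 : ℝ)) := by
        rw [← av_const_mul]; simp
      rw [this, m0, mul_one]
    rw [h2] at h1
    have h4 := hQ f hf
    rw [hev] at h4
    rw [h4, ← av_const_mul]
    congr 1
    funext θ
    rw [hevQ, ← h1]
    push_cast; ring
  · have hLL : ∀ (a b : Fin N) (x : E N), LL a b (fun x => f x + g x) x = LL a b f x + LL a b g x := by
      intro a b x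
      have h : fderiv ℝ (fun x => f x + g x) x = fderiv ℝ f x + fderiv ℝ g x :=
        fderiv_add ((hf.differentiable (by simp)) x) ((hg.differentiable (by simp)) x)
      unfold LL
      rw [h]
      simp only [ContinuousLinearMap.add_apply]
      ring
    have hcoe : Continuous (fun θ : Sp N => (θ : E N)) := continuous_subtype_val
    have bGs : ∀ h : E N → ℝ, ContDiff ℝ (⊤ : ℕ∞) h → BM (fun θ : Sp N => Gs h (θ : E N)) := by
      intro h hh
      refine BM_cont ?_
      unfold Gs
      refine continuous_const.mul (continuous_finset_sum _ fun a _ => continuous_finset_sum _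
        fun b _ => ((gx_cont_LL a b hh).comp hcoe).pow 2)
    have bGb : BM (fun θ : Sp N => Gb f g (θ : E N)) := by
      refine BM_cont ?_
      unfold Gb
      refine continuous_const.mul (continuous_finset_sum _ fun a _ => continuous_finset_sum _
        fun b _ => ((gx_cont_LL a b hf).comp hcoe).mul ((gx_cont_LL a b hg).comp hcoe))
    rw [← av_const_mul, ← av_add (bGs f hf) (bGb.const_mul 2),
      ← av_add ((bGs f hf).add (bGb.const_mul 2)) (bGs g hg)]
    congr 1
    funext θ
    unfold Gs Gb
    simp only [hLL, Finset.mul_sum]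
    rw [← Finset.sum_add_distrib, ← Finset.sum_add_distrib]
    refine Finset.sum_congr rfl fun a _ => ?_
    rw [← Finset.sum_add_distrib, ← Finset.sum_add_distrib]
    refine Finset.sum_congr rfl fun b _ => ?_
    ring
  · have hi : BM (fun θ : Sp N => (θ : E N) i ^ 2) := (BM_coord i).pow 2
    have h1 : (fun θ : Sp N => Gs (fun x : E N => x i) (θ : E N)) =
        fun θ : Sp N => 1 - (θ : E N) i ^ 2 := by
      funext θ
      rw [gx_Gs_coord, sum_sq_sp]
    have h2 := m2 i i
    rw [if_pos rfl] at h2
    have h3 : av (fun θ : Sp N => (θ : E N) i ^ 2) = 1 / N := by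
      rw [← h2]; congr 1; funext θ; ring
    have hN0 : (N : ℝ) ≠ 0 := by
      have : (2 : ℝ) ≤ N := by exact_mod_cast hN
      linarith
    rw [h1, av_sub (BM_const 1) hi, m0, h3]
    field_simp

end Pool.Agent.H38.LNN
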